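import Mathlib

/-! Lower envelopes of plane curves and the inverse Ackermann function. -/

set_option autoImplicit false

namespace Pool.Agent.Lib.MP_a48542_co

/-- The Ackermann hierarchy: `ackA 1 m = 2 m`, and `ackA (k + 1) m` is the `m`-fold iterate of
`ackA k` applied to `1`. The value at `k = 0` is not used. -/
def ackA : ℕ → ℕ → ℕ
  | 0 => fun _ => 0
  | 1 => fun m => 2 * m
  | k + 2 => fun m => (ackA (k + 1))^[m] 1

/-- The inverse Ackermann function. -/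
noncomputable def alpha (n : ℕ) : ℕ := sInf {k : ℕ | 1 ≤ k ∧ n ≤ ackA k k}

/-- The curve `γ` attains, at the abscissa `x`, the minimum ordinate of the points of the curves
of `Γ` with that abscissa. -/
def Attains (Γ : Finset (Set (ℝ × ℝ))) (γ : Set (ℝ × ℝ)) (x : ℝ) : Prop :=
  ∃ y : ℝ, (x, y) ∈ γ ∧ ∀ δ ∈ Γ, ∀ z : ℝ, (x, z) ∈ δ → y ≤ z

/-- The curve attaining the lower envelope of `Γ` changes at `x`: just left of `x` only `γ`
attains it, and just right of `x` only another curve `γ'` does. -/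
def IsBreak (Γ : Finset (Set (ℝ × ℝ))) (x : ℝ) : Prop :=
  ∃ γ ∈ Γ, ∃ γ' ∈ Γ, γ ≠ γ' ∧ ∃ ε : ℝ, 0 < ε ∧
    (∀ t ∈ Set.Ioo (x - ε) x, ∀ δ ∈ Γ, Attains Γ δ t ↔ δ = γ) ∧
    ∀ t ∈ Set.Ioo x (x + ε), ∀ δ ∈ Γ, Attains Γ δ t ↔ δ = γ'

/-- Ellipses: preimages of the unit circle under invertible affine maps of the plane. -/
def IsEllipse (γ : Set (ℝ × ℝ)) : Prop :=
  ∃ a b c d e f : ℝ, a * d - b * c ≠ 0 ∧
    γ = {p | (a * p.1 + b * p.2 + e) ^ 2 + (c * p.1 + d * p.2 + f) ^ 2 = 1}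

/-- Circular arcs: connected closed subsets of a circle, with more than one point. -/
def IsArc (γ : Set (ℝ × ℝ)) : Prop :=
  IsConnected γ ∧ IsClosed γ ∧ γ.Nontrivial ∧
    ∃ a b r : ℝ, 0 < r ∧ γ ⊆ {p | (p.1 - a) ^ 2 + (p.2 - b) ^ 2 = r ^ 2}

end Pool.Agent.Lib.MP_a48542_co
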