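import Pool.Agent.Lib.MP_a48542_co.Defs

-- part Pool.Agent.Lib.MP_a48542_co.Core
section

/-! Configurations of nearly tangent arcs with prescribed curvatures. -/

set_option autoImplicit false

open Finset

namespace Pool.Agent.Lib.MP_a48542_co

/-- A class of functions with bounded domains, closed under the symmetries that are used. -/
structure Cls (C : (ℝ → ℝ) → Set ℝ → Prop) : Prop where
  move : ∀ p I, C p I → ∀ σ t m c : ℝ, (σ = 1 ∨ σ = -1) →
    C (fun x => p (σ * (x - t)) + (c + m * x)) {x | σ * (x - t) ∈ I}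
  bdd : ∀ p I, C p I → ∃ W, ∀ x ∈ I, |x| ≤ W
  base : ∀ a M θ : ℝ, 0 < a → 0 < M → 0 < θ →
    ∃ p I, C p I ∧ ∀ x, |x| ≤ M → x ∈ I ∧ |p x - a * x ^ 2| ≤ θ

/-- Blocks indexed by `β` and arcs indexed by `α`. At each block, one arc for each curvature in `s`
is nearly tangent to a line, and the other arcs pass far above. -/
structure Cfg (C : (ℝ → ℝ) → Set ℝ → Prop) (s : Finset ℝ) (D M θ : ℝ) (β α : Type) where
  x : β → ℝ
  v : β → ℝ
  m : β → ℝ
  p : α → ℝ → ℝ
  I : α → Set ℝ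
  lev : α → ℝ
  mem : β → α → Prop
  cls : ∀ a, C (p a) (I a)
  ex : ∀ B, ∀ c ∈ s, ∃ a, mem B a ∧ lev a = c
  uniq : ∀ B a a', mem B a → mem B a' → lev a = lev a' → a = a'
  tan : ∀ B a, mem B a → lev a ∈ s ∧ ∀ y, |y - x B| ≤ M →
    y ∈ I a ∧ |p a y - (v B + m B * y) - lev a * (y - x B) ^ 2| ≤ θ
  vis : ∀ B a, ¬ mem B a → ∀ y, |y - x B| ≤ M → y ∈ I a → v B + m B * y + M ≤ p a y
  par : ∀ B B', B ≠ B' → ∀ y, |y - x B'| ≤ M →
    v B' + m B' * y + M ≤ v B + m B * y + D * (y - x B) ^ 2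
  sep : ∀ B B', B ≠ B' → 2 * M < |x B - x B'|

variable {C : (ℝ → ℝ) → Set ℝ → Prop}

theorem exists_bound {ι : Type} [Finite ι] (f : ι → ℝ) : ∃ K, 0 ≤ K ∧ ∀ i, f i ≤ K := by
  obtain ⟨K, hK⟩ := (Set.finite_range f).bddAbove
  exact ⟨max K 0, le_max_right _ _, fun i => (hK ⟨i, rfl⟩).trans (le_max_left _ _)⟩

theorem base_cfg (hC : Cls C) (s : Finset ℝ) {D M θ : ℝ} (hs : ∀ c ∈ s, 0 < c) (hD : 0 < D)
    (hM : 0 < M) (hθ : 0 < θ) (q : ℕ) : Nonempty (Cfg C s D M θ (Fin q) (Fin q × s)) := by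
  classical
  choose p I h1 h2 using fun c : s => hC.base c M θ (hs c c.2) hM hθ
  choose W hW using fun c : s => hC.bdd _ _ (h1 c)
  obtain ⟨K, K0, hK⟩ := exists_bound W
  have h3 : 0 < M / D := by positivity
  set L := K + 2 * M + M / D + 1 with hL
  have far : ∀ B B' : Fin q, B ≠ B' → L ≤ |B * L - B' * L| := fun B B' h => by
    rw [← sub_mul, abs_mul, abs_of_pos (by positivity : 0 < L)]
    refine le_mul_of_one_le_left (by positivity) ?_
    have : (1 : ℤ) ≤ |(B : ℤ) - B'| := Int.one_le_abs (by omega)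
    exact_mod_cast this
  refine ⟨⟨fun B => B * L, 0, 0, fun a x => p a.2 (1 * (x - a.1 * L)) + (0 + 0 * x),
    fun a => {x | 1 * (x - a.1 * L) ∈ I a.2}, fun a => a.2,
    fun B a => B = a.1, fun a => hC.move _ _ (h1 a.2) 1 _ 0 0 (.inl rfl),
    fun B c hc => ⟨(B, ⟨c, hc⟩), rfl, rfl⟩,
    fun B a a' h h' e => Prod.ext (h.symm.trans h') (Subtype.ext e),
    fun B a h => ⟨a.2.2, fun y hy => by subst h; simpa using h2 a.2 _ hy⟩,
    fun B a h y hy hy' => absurd (far _ _ h) (not_le.mpr ?_), fun B B' h y hy => ?_,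
    fun B B' h => by linarith [far B B' h]⟩⟩
  · have h4 := (hW _ _ hy').trans (hK _)
    rw [one_mul] at h4
    have := abs_sub_le (B * L) y (a.1 * L)
    rw [abs_sub_comm] at hy
    linarith
  · have h4 := far _ _ h
    have h5 := abs_sub_le (B * L) y (B' * L)
    have h6 : M / D + 1 ≤ |y - B * L| := by rw [abs_sub_comm]; linarith
    have h7 : M / D ≤ (y - B * L) ^ 2 := by rw [← sq_abs]; nlinarith
    simpa using (div_le_iff₀' hD).mp h7

/-- The sign attached to a side. -/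
def sg (b : Bool) : ℝ := if b then 1 else -1

theorem sg_cases (b : Bool) : sg b = 1 ∨ sg b = -1 := by cases b <;> simp [sg]

theorem sg_ne {b b' : Bool} (h : b ≠ b') : sg b' = -sg b := by
  cases b <;> cases b' <;> simp_all [sg]

theorem abs_sg (b : Bool) (x : ℝ) : |sg b * x| = |x| := by
  rcases sg_cases b with h | h <;> simp [h]

theorem sg_sq (b : Bool) : sg b * sg b = 1 := by rcases sg_cases b with h | h <;> simp [h]

theorem step_cfg (hC : Cls C) {s : Finset ℝ} {a D M θ : ℝ} (ha : ∀ c ∈ s, c < a) (a0 : 0 < a)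
    (aD : a < D) (hM : 0 < M) (hθ : 0 < θ) {β α : Type} [Fintype β] [Finite α]
    (F : Cfg C s a (M + 1) θ β α) : ∃ (s' : Finset ℝ) (D' M' θ' : ℝ), #s' = Fintype.card β ∧
      (∀ c ∈ s', 0 < c ∧ c < D') ∧ 0 < D' ∧ 0 < M' ∧ 0 < θ' ∧ ∀ β' α' : Type,
        Cfg C s' D' M' θ' β' α' →
        Nonempty (Cfg C (insert a s) D M θ (β' × Bool × β) (α' ⊕ β' × Bool × α)) := by
  classical
  obtain ⟨η, η0, η1, η2⟩ : ∃ η : ℝ, 0 < η ∧ 4 * η * M ^ 2 ≤ θ ∧ a + 4 * η ≤ D := by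
    refine ⟨min (θ / (4 * M ^ 2)) ((D - a) / 4), lt_min (by positivity) (by linarith), ?_,
      by linarith [min_le_right (θ / (4 * M ^ 2)) ((D - a) / 4)]⟩
    have := (le_div_iff₀ (by positivity)).mp (min_le_left (θ / (4 * M ^ 2)) ((D - a) / 4))
    linarith
  choose W₀ hW₀ using fun c => hC.bdd _ _ (F.cls c)
  obtain ⟨W, W0, hW⟩ := exists_bound
    (Sum.elim W₀ fun k => |F.x k| + |2 * (a + η) * F.x k - F.m k|)
  have w1 : ∀ c, ∀ y ∈ F.I c, |y| ≤ W := fun c y hy => (hW₀ c y hy).trans (hW (.inl c))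
  have w2 : ∀ k, |F.x k| ≤ W := fun k => le_trans (le_add_of_nonneg_right (abs_nonneg _)) (hW (.inr k))
  have w3 : ∀ k, |2 * (a + η) * F.x k - F.m k| ≤ W := fun k =>
    le_trans (le_add_of_nonneg_left (abs_nonneg _)) (hW (.inr k))
  obtain ⟨X, X1, X2, X3⟩ : ∃ X : ℝ, W + M + 1 ≤ X ∧ W ≤ η * (X - W) ∧ M ≤ η * (X - W) := by
    have h1 : 0 ≤ W / η := by positivity
    have h2 : 0 ≤ M / η := by positivity
    refine ⟨W + M + 1 + W / η + M / η, by linarith, ?_, ?_⟩ <;> rw [← div_le_iff₀' η0] <;> linarith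
  have d0 : ∀ k, X - W ≤ X - F.x k := fun k => by linarith [le_abs_self (F.x k), w2 k]
  have d1 : ∀ k, X - F.x k ≤ X + W := fun k => by linarith [neg_abs_le (F.x k), w2 k]
  obtain ⟨A, hA⟩ : ∃ A : β → ℝ, ∀ k, 2 * A k * (X - F.x k) = 2 * (a + η) * X - F.m k :=
    ⟨fun k => (2 * (a + η) * X - F.m k) / (2 * (X - F.x k)), fun k => by
      have : 0 < X - F.x k := by linarith [d0 k]
      field_simp⟩
  have A1 : ∀ k, a < A k ∧ A k < a + 2 * η := fun k => by
    have h1 := abs_le.mp (w3 k)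
    have h2 := d0 k
    have h3 := hA k
    have h4 : η * (X - W) ≤ η * (X - F.x k) := by gcongr
    have h5 : 0 < η * (X - F.x k) := mul_pos η0 (by linarith)
    constructor <;> refine lt_of_mul_lt_mul_right (a := X - F.x k) ?_ (by linarith) <;> nlinarith
  obtain ⟨δ, hδ⟩ : ∃ δ : β → ℝ, ∀ k u, -(2 * (a + η) * X) * u + (F.v k + F.m k * (u + X)) +
      A k * (u + X - F.x k) ^ 2 = A k * u ^ 2 + δ k :=
    ⟨fun k => F.v k + F.m k * X + A k * (X - F.x k) ^ 2, fun k u => by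
      linear_combination u * hA k⟩
  have par : ∀ k k', k ≠ k' → ∀ u, |u + X - F.x k'| ≤ M →
      -(2 * (a + η) * X) * u + (F.v k' + F.m k' * (u + X)) + (M + 1) ≤ A k * u ^ 2 + δ k :=
    fun k k' h u hu => by
      have h1 := F.par k k' h (u + X) (by linarith)
      have h2 := mul_le_mul_of_nonneg_right (A1 k).1.le (sq_nonneg (u + X - F.x k))
      linarith [hδ k u]
  have inj : Function.Injective A := fun k k' e => by
    by_contra h
    have h1 := par k k' h (F.x k' - X) (by simpa using hM.le)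
    have h2 := par k' k (Ne.symm h) (F.x k - X) (by simpa using hM.le)
    have h3 := hδ k' (F.x k' - X)
    have h4 := hδ k (F.x k - X)
    rw [e] at h1 h4
    simp only [sub_add_cancel, sub_self] at h1 h2 h3 h4
    linarith
  obtain ⟨K, K0, hK⟩ := exists_bound fun k =>
    |δ k| + (|F.m k - 2 * (a + η) * X| * (X + W + M) + |F.v k + F.m k * X|)
  have k2 : ∀ k u, |u| ≤ X + W + M →
      |-(2 * (a + η) * X) * u + (F.v k + F.m k * (u + X))| ≤ K := fun k u hu => by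
    rw [show -(2 * (a + η) * X) * u + (F.v k + F.m k * (u + X)) =
      (F.m k - 2 * (a + η) * X) * u + (F.v k + F.m k * X) by ring]
    refine (abs_add_le _ _).trans (le_trans ?_ (hK k))
    rw [abs_mul]
    refine le_add_of_nonneg_of_le (abs_nonneg _) ?_
    gcongr
  have k1 : ∀ k, |δ k| ≤ K := fun k => le_trans (le_add_of_nonneg_right
    (add_nonneg (mul_nonneg (abs_nonneg _) (by linarith)) (abs_nonneg _))) (hK k)
  obtain ⟨dl, l1, l2⟩ : ∃ dl : ℝ → ℝ, (∀ k, dl (A k) = δ k) ∧ ∀ c, -K ≤ dl c := by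
    refine ⟨Function.extend A δ 0, inj.extend_apply δ 0, fun c => ?_⟩
    by_cases h : ∃ k, A k = c
    · obtain ⟨k, rfl⟩ := h
      rw [inj.extend_apply]
      exact (abs_le.mp (k1 k)).1
    · simpa [Function.extend_apply' _ _ _ h] using K0
  refine ⟨univ.image A, a + 2 * η, 3 * (X + W + M) + 2 * K + M, min (θ / 2) 1,
    by rw [card_image_of_injective _ inj, card_univ], by
      simpa using fun k => ⟨a0.trans (A1 k).1, (A1 k).2⟩, by positivity, by
      have : 0 < X := by linarith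
      positivity, by positivity, fun β' α' G => ?_⟩
  have hx : ∀ (B : β') (σ : Bool) (k : β) (y : ℝ), y - (G.x B + sg σ * (F.x k - X)) =
      sg σ * (sg σ * (y - G.x B) + X - F.x k) := fun B σ k y => by
    linear_combination (G.x B - y) * sg_sq σ
  have hx1 : ∀ (B : β') (σ : Bool) (k : β) (y : ℝ), |y - (G.x B + sg σ * (F.x k - X))| =
      |sg σ * (y - G.x B) + X - F.x k| := fun B σ k y => by rw [hx, abs_sg]
  have hx2 : ∀ (B : β') (σ : Bool) (k : β) (y : ℝ), (y - (G.x B + sg σ * (F.x k - X))) ^ 2 =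
      (sg σ * (y - G.x B) + X - F.x k) ^ 2 := fun B σ k y => by rw [← sq_abs, hx1, sq_abs]
  have hx3 : ∀ (B : β') (σ : Bool) (y : ℝ), sg σ * (y - (G.x B - sg σ * X)) =
      sg σ * (y - G.x B) + X := fun B σ y => by linear_combination X * sg_sq σ
  have hu : ∀ (B : β') (σ : Bool) (y : ℝ), (sg σ * (y - G.x B)) ^ 2 = (y - G.x B) ^ 2 :=
    fun B σ y => by rw [← sq_abs, abs_sg, sq_abs]
  have win : ∀ (B : β') (σ : Bool) (k : β) (y : ℝ), |sg σ * (y - G.x B) + X - F.x k| ≤ M →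
      |y - G.x B| ≤ X + W + M := fun B σ k y h => by
    rw [← abs_sg σ, abs_le]
    have := abs_le.mp h
    constructor <;> linarith [d0 k, d1 k]
  refine ⟨⟨fun B => G.x B.1 + sg B.2.1 * (F.x B.2.2 - X),
    fun B => G.v B.1 + 2 * (a + η) * X * (sg B.2.1 * G.x B.1) + F.v B.2.2 +
      F.m B.2.2 * (X - sg B.2.1 * G.x B.1),
    fun B => G.m B.1 + (F.m B.2.2 - 2 * (a + η) * X) * sg B.2.1,
    Sum.elim (fun g y => G.p g y + dl (G.lev g)) fun c y =>
      F.p c.2.2 (sg c.2.1 * (y - (G.x c.1 - sg c.2.1 * X))) +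
        (G.v c.1 + 2 * (a + η) * X * (sg c.2.1 * G.x c.1) + (G.m c.1 - 2 * (a + η) * X * sg c.2.1) * y),
    Sum.elim G.I fun c => {y | sg c.2.1 * (y - (G.x c.1 - sg c.2.1 * X)) ∈ F.I c.2.2},
    Sum.elim (fun _ => a) fun c => F.lev c.2.2,
    fun B => Sum.elim (fun g => G.mem B.1 g ∧ G.lev g = A B.2.2)
      fun c => B.1 = c.1 ∧ B.2.1 = c.2.1 ∧ F.mem B.2.2 c.2.2, ?_, ?_, ?_, ?_, ?_, ?_, ?_⟩⟩
  · rintro (g | ⟨B, σ, c⟩)
    · simpa using hC.move _ _ (G.cls g) 1 0 0 (dl (G.lev g)) (.inl rfl)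
    · exact hC.move _ _ (F.cls c) _ _ _ _ (sg_cases σ)
  · rintro ⟨B, σ, k⟩ c hc
    rcases mem_insert.mp hc with rfl | hc
    · obtain ⟨g, h1, h2⟩ := G.ex B (A k) (by simp)
      exact ⟨.inl g, ⟨h1, h2⟩, rfl⟩
    · obtain ⟨g, h1, h2⟩ := F.ex k c hc
      exact ⟨.inr (B, σ, g), ⟨rfl, rfl, h1⟩, h2⟩
  · rintro ⟨B, σ, k⟩ (g | ⟨B₁, σ₁, c⟩) (g' | ⟨B₂, σ₂, c'⟩) h h' e
    · rw [G.uniq B g g' h.1 h'.1 (h.2.trans h'.2.symm)]
    · exact absurd e (ha _ (F.tan k c' h'.2.2).1).ne'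
    · exact absurd e (ha _ (F.tan k c h.2.2).1).ne
    · obtain ⟨rfl, rfl, h⟩ := h
      obtain ⟨rfl, rfl, h'⟩ := h'
      rw [F.uniq k c c' h h' e]
  · rintro ⟨B, σ, k⟩ (g | ⟨B₁, σ₁, c⟩) h
    · refine ⟨mem_insert_self _ _, fun y hy => ?_⟩
      simp only [Sum.elim_inl, hx1, hx2] at h hy ⊢
      obtain ⟨h1, h2⟩ := (G.tan B g h.1).2 y (by linarith [win B σ k y hy, abs_nonneg (y - G.x B)])
      have h3 := hδ k (sg σ * (y - G.x B))
      have h4 : (sg σ * (y - G.x B) + X - F.x k) ^ 2 ≤ M ^ 2 := sq_le_sq' (abs_le.mp hy).1 (abs_le.mp hy).2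
      have h5 := mul_le_mul (by linarith [(A1 k).2] : A k - a ≤ 2 * η) h4 (sq_nonneg _) (by positivity)
      have h6 := mul_nonneg (sub_pos.mpr (A1 k).1).le (sq_nonneg (sg σ * (y - G.x B) + X - F.x k))
      have h7 := abs_le.mp (h2.trans (min_le_left _ _))
      rw [h.2] at h7 ⊢
      rw [hu] at h3
      refine ⟨h1, abs_le.mpr ⟨?_, ?_⟩⟩ <;> rw [l1] <;> linarith
    · obtain ⟨rfl, rfl, h⟩ := h
      refine ⟨mem_insert_of_mem (F.tan k c h).1, fun y hy => ?_⟩
      simp only [Sum.elim_inr, hx1, hx2, hx3, Set.mem_ofPred_eq] at hy ⊢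
      obtain ⟨h1, h2⟩ := (F.tan k c h).2 (sg σ * (y - G.x B) + X) (by linarith)
      exact ⟨h1, by convert h2 using 2; ring⟩
  · rintro ⟨B, σ, k⟩ (g | ⟨B₁, σ₁, c⟩) h y hy hy'
    · simp only [Sum.elim_inl, hx1] at h hy hy' ⊢
      have h0 := win B σ k y hy
      have h1 : |y - G.x B| ≤ 3 * (X + W + M) + 2 * K + M := by linarith [abs_nonneg (y - G.x B)]
      by_cases hg : G.mem B g
      · obtain ⟨k', -, e⟩ := mem_image.mp (G.tan B g hg).1
        have h2 := abs_le.mp (((G.tan B g hg).2 y h1).2.trans (min_le_right _ _))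
        have h3 := par k' k (fun e' => h ⟨hg, e' ▸ e.symm⟩) _ hy
        rw [← e] at h2 ⊢
        rw [hu] at h3
        rw [l1]
        linarith
      · have h2 := G.vis B g hg y h1 hy'
        have h3 := abs_le.mp (k2 k (sg σ * (y - G.x B)) (by rwa [abs_sg]))
        linarith [l2 (G.lev g), abs_nonneg (y - G.x B)]
    · simp only [Sum.elim_inr, hx1, hx3, Set.mem_ofPred_eq] at h hy hy' ⊢
      have h0 := abs_le.mp (w1 _ _ hy')
      by_cases hB : B = B₁
      · subst hB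
        by_cases hσ : σ = σ₁
        · subst hσ
          have := F.vis k c (fun e => h ⟨rfl, rfl, e⟩) (sg σ * (y - G.x B) + X) (by linarith) hy'
          linarith
        · rw [sg_ne hσ] at h0
          linarith [(abs_le.mp hy).2, d0 k]
      · have h1 := G.sep B B₁ hB
        have h2 := win B σ k y hy
        have h3 : |y - G.x B₁| ≤ X + W := by
          rw [← abs_sg σ₁, abs_le]; constructor <;> linarith
        have h4 := abs_sub_le (G.x B) y (G.x B₁)
        rw [abs_sub_comm] at h2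
        linarith
  · rintro ⟨B, σ, k⟩ ⟨B₁, σ₁, k₁⟩ h y hy
    simp only [hx1, hx2] at hy ⊢
    have h1 := hδ k (sg σ * (y - G.x B))
    have h2 := A1 k
    have h3 := sq_nonneg (sg σ * (y - G.x B) + X - F.x k)
    by_cases hB : B = B₁
    · subst hB
      by_cases hσ : σ = σ₁
      · subst hσ
        have h4 := par k k₁ (fun e => h (by rw [e])) _ hy
        nlinarith
      · have h4 : -(2 * (a + η) * X) * (sg σ₁ * (y - G.x B)) + (F.v k₁ + F.m k₁ *
            (sg σ₁ * (y - G.x B) + X)) ≤ A k * (sg σ₁ * (y - G.x B)) ^ 2 + δ k := by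
          by_cases e : k = k₁
          · subst e
            have := mul_nonneg (a0.trans h2.1).le (sq_nonneg (sg σ₁ * (y - G.x B) + X - F.x k))
            linarith [hδ k (sg σ₁ * (y - G.x B))]
          · linarith [par k k₁ e _ hy]
        have h5 : X - W ≤ sg σ * (y - G.x B) + X - F.x k := by
          rw [sg_ne (Ne.symm hσ)]
          linarith [(abs_le.mp hy).2, d0 k, d0 k₁]
        have h6 : X - W ≤ (sg σ * (y - G.x B) + X - F.x k) ^ 2 := by nlinarith
        have h7 := mul_le_mul (by linarith : η ≤ D - A k) h6 (by linarith) (by linarith)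
        rw [hu] at h1 h4
        linarith
    · have h4 := win B₁ σ₁ k₁ y hy
      have h5 := G.par B B₁ hB y (by linarith [abs_nonneg (y - G.x B₁)])
      have h6 := abs_le.mp (k2 k₁ (sg σ₁ * (y - G.x B₁)) (by rwa [abs_sg]))
      have h7 := abs_le.mp (k1 k)
      have h8 : 4 * (X - F.x k) ≤ |sg σ * (y - G.x B)| := by
        have := abs_sub_le (G.x B) y (G.x B₁)
        rw [abs_sg, abs_sub_comm y]
        linarith [G.sep B B₁ hB, d1 k, abs_nonneg (y - G.x B₁)]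
      have h9 : (sg σ * (y - G.x B)) ^ 2 ≤ 2 * (sg σ * (y - G.x B) + X - F.x k) ^ 2 := by
        have := d0 k
        rcases le_abs.mp h8 with e | e <;> nlinarith
      have h10 := mul_le_mul_of_nonneg_left h9 (sub_pos.mpr h2.2).le
      have h11 := mul_le_mul_of_nonneg_right
        (by linarith : (a + 2 * η - A k) * 2 ≤ D - A k) h3
      rw [hu] at h1 h10
      linarith [abs_nonneg (y - G.x B₁)]
  · rintro ⟨B, σ, k⟩ ⟨B₁, σ₁, k₁⟩ h
    simp only [hx1]
    by_cases hB : B = B₁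
    · subst hB
      by_cases hσ : σ = σ₁
      · subst hσ
        have := F.sep k k₁ fun e => h (by rw [e])
        rw [show sg σ * (G.x B + sg σ * (F.x k - X) - G.x B) + X - F.x k₁ = F.x k - F.x k₁ by
          linear_combination (F.x k - X) * sg_sq σ]
        linarith
      · rw [show sg σ₁ * (G.x B + sg σ * (F.x k - X) - G.x B) + X - F.x k₁ =
          X - F.x k + (X - F.x k₁) by
            rw [sg_ne hσ]; linear_combination (X - F.x k) * sg_sq σ]
        exact lt_abs.mpr (.inl (by linarith [d0 k, d0 k₁]))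
    · rw [← hx1]
      have h1 := G.sep B B₁ hB
      have h2 : ∀ (σ : Bool) k, |sg σ * (F.x k - X)| ≤ X + W := fun σ k => by
        rw [abs_sg, abs_le]; constructor <;> linarith [d0 k, d1 k]
      have h3 := abs_le.mp (h2 σ k)
      have h4 := abs_le.mp (h2 σ₁ k₁)
      rcases lt_abs.mp h1 with e | e
      · exact lt_abs.mpr (.inl (by linarith))
      · exact lt_abs.mpr (.inr (by linarith))

/-- The number of blocks. -/
def nb : ℕ → ℕ → ℕ
  | 0 => fun _ => 1
  | i + 1 => fun j => (fun x => 2 * x * nb i x)^[j] 1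

theorem exists_cfg (hC : Cls C) (i : ℕ) : ∀ (s : Finset ℝ) (D M θ : ℝ) (q : ℕ),
    (∀ c ∈ s, 0 < c ∧ c < D) → 0 < D → 0 < M → 0 < θ →
    ∃ (β α : Type) (_ : Fintype β) (_ : Fintype α), Nonempty (Cfg C s D M θ β α) ∧
      Fintype.card β = q * nb i #s ∧ Fintype.card α * 2 ^ i = #s * Fintype.card β := by
  induction i with
  | zero =>
    exact fun s D M θ q hs hD hM hθ => ⟨_, _, inferInstance, inferInstance,
      base_cfg hC s (fun c h => (hs c h).1) hD hM hθ q, by simp [nb], by simp [mul_comm]⟩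
  | succ i ih =>
    intro s
    induction s using Finset.induction_on_max with
    | empty =>
      exact fun D M θ q hs hD hM hθ => ⟨_, _, inferInstance, inferInstance,
        base_cfg hC ∅ (by simp) hD hM hθ q, by simp [nb], by simp⟩
    | insert a s ha ih' =>
      intro D M θ q hs hD hM hθ
      have a0 := hs a (mem_insert_self _ _)
      obtain ⟨β, α, _, _, ⟨F⟩, c1, c2⟩ := ih' a (M + 1) θ 1
        (fun c h => ⟨(hs c (mem_insert_of_mem h)).1, ha c h⟩) a0.1 (by linarith) hθ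
      obtain ⟨s', D', M', θ', c3, h1, h2, h3, h4, h5⟩ := step_cfg hC ha a0.1 a0.2 hM hθ F
      obtain ⟨β', α', _, _, ⟨G⟩, c4, c5⟩ := ih s' D' M' θ' q h1 h2 h3 h4
      rw [card_insert_of_notMem fun h => (ha a h).false]
      refine ⟨_, _, inferInstance, inferInstance, h5 β' α' G, ?_, ?_⟩
      · simp only [Fintype.card_prod, Fintype.card_bool, c4, c3, c1, one_mul, nb,
          Function.iterate_succ_apply']
        ring
      · simp only [Fintype.card_prod, Fintype.card_sum, Fintype.card_bool]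
        rw [c3] at c5
        linear_combination 2 * c5 + 2 * Fintype.card β' * c2

end Pool.Agent.Lib.MP_a48542_co
end

-- part Pool.Agent.Lib.MP_a48542_co.Final
section

/-! From configurations to breakpoints. -/

set_option autoImplicit false

open Finset Filter Topology

namespace Pool.Agent.Lib.MP_a48542_co

theorem ackA_succ (k y : ℕ) : ackA (k + 2) (y + 1) = ackA (k + 1) (ackA (k + 2) y) :=
  Function.iterate_succ_apply' _ _ _

theorem ackA_prop (k : ℕ) : (Monotone (ackA (k + 1)) ∧ ∀ y, 2 * y ≤ ackA (k + 1) y) ∧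
    ∀ y, 2 ^ y ≤ ackA (k + 2) y := by
  have key : ∀ k, (∀ y, 2 * y ≤ ackA (k + 1) y) → ∀ y, 2 ^ y ≤ ackA (k + 2) y := fun k h y => by
    induction y with
    | zero => exact le_rfl
    | succ y ih => rw [ackA_succ, pow_succ]; linarith [h (ackA (k + 2) y)]
  induction k with
  | zero => exact ⟨⟨fun a b h => Nat.mul_le_mul_left 2 h, fun _ => le_rfl⟩, key 0 fun _ => le_rfl⟩
  | succ k ih =>
    have h : ∀ y, 2 * y ≤ ackA (k + 2) y := fun y => le_trans (by
      cases y with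
      | zero => simp
      | succ y => rw [pow_succ]; linarith [y.lt_two_pow_self]) (ih.2 y)
    exact ⟨⟨monotone_nat_of_le_succ fun y => by
      rw [ackA_succ]; linarith [ih.1.2 (ackA (k + 2) y)], h⟩, key _ h⟩

theorem ackA_le (k y : ℕ) : ackA (k + 1) (y + 1) ≤ ackA (k + 2) (y + 1) := by
  rw [ackA_succ]
  exact (ackA_prop k).1.1 (y.lt_two_pow_self.trans_le ((ackA_prop k).2 y))

theorem nb_le (i : ℕ) : ∀ j, nb i j ≤ ackA (i + 2) (6 * j) := by
  induction i with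
  | zero => exact fun j => Nat.one_le_two_pow.trans ((ackA_prop 0).2 _)
  | succ i ih =>
    intro j
    obtain ⟨h1, h2⟩ : Monotone (ackA (i + 2)) ∧ ∀ y, 2 * y ≤ ackA (i + 2) y := (ackA_prop (i + 1)).1
    have h3 := (ackA_prop i).2
    change _ ≤ (ackA (i + 2))^[6 * j] 1
    rw [Function.iterate_mul]
    refine (h1.iterate 6).le_iterate_of_le (fun x => ?_) j 1
    simp only [Function.iterate_succ_apply', Function.iterate_zero, id]
    have a1 := h2 x
    have a2 := h2 (ackA (i + 2) x)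
    have a3 := h2 (ackA (i + 2) (ackA (i + 2) x))
    have a4 := h2 (ackA (i + 2) (ackA (i + 2) (ackA (i + 2) x)))
    have a5 := (ih x).trans (h1 (show 6 * x ≤ ackA (i + 2) (ackA (i + 2) (ackA (i + 2) x)) by omega))
    generalize ackA (i + 2) (ackA (i + 2) (ackA (i + 2) (ackA (i + 2) x))) = z at *
    refine le_trans ?_ ((Nat.pow_le_pow_right two_pos (h2 z)).trans (h3 _))
    rw [two_mul z, pow_add]
    exact Nat.mul_le_mul (by linarith [z.lt_two_pow_self]) (by linarith [z.lt_two_pow_self])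

theorem nb_pos (i : ℕ) : ∀ j, 0 < nb i j := by
  induction i with
  | zero => simp [nb]
  | succ i ih =>
    exact fun j => Function.Iterate.rec (0 < ·) one_pos (fun x h => by have := ih x; positivity) j

theorem nb_le_of {n : ℕ} (hn : 2 ≤ n) : 2 * nb (alpha n - 13) 2 ≤ n * 2 ^ (alpha n - 13) := by
  rcases Nat.eq_zero_or_pos (alpha n - 13) with h | h
  · simpa [h, nb] using hn
  obtain ⟨i, hi⟩ : ∃ i, alpha n = i + 14 := ⟨alpha n - 14, by omega⟩
  have h1 : i + 13 ∉ {k : ℕ | 1 ≤ k ∧ n ≤ ackA k k} := Nat.notMem_of_lt_sInf (by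
    change _ < alpha n; omega)
  have h2 : ∀ t, ackA (i + 3) 12 ≤ ackA (i + 3 + t) 12 := fun t => by
    induction t with
    | zero => exact le_rfl
    | succ t ih => 
      have := ackA_le (i + 2 + t) 11
      rw [show i + 2 + t + 1 = i + 3 + t by omega, show i + 2 + t + 2 = i + 3 + (t + 1) by omega] at this
      exact ih.trans this
  have h3 : nb (i + 1) 2 ≤ n := ((nb_le (i + 1) 2).trans ((h2 10).trans
    ((ackA_prop (i + 12)).1.1 (show 12 ≤ i + 13 by omega)))).trans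
    (not_lt.mp fun k => h1 ⟨by omega, k.le⟩)
  rw [hi, show i + 14 - 13 = i + 1 by omega, pow_succ]
  nlinarith [Nat.one_le_two_pow (n := i)]

theorem sign_change {φ : ℝ → ℝ} {l r : ℝ} (hl : l < r) (h : ∀ x ∈ Set.Icc l r, AnalyticAt ℝ φ x)
    (h1 : 0 < φ l) (h2 : φ r < 0) : ∃ x ε, 0 < ε ∧ l ≤ x - ε ∧ x + ε ≤ r ∧
      (∀ t ∈ Set.Ioo (x - ε) x, 0 < φ t) ∧ ∀ t ∈ Set.Ioo x (x + ε), φ t < 0 := by
  set S := {x ∈ Set.Icc l r | φ x < 0}
  have S1 : S.Nonempty := ⟨r, ⟨hl.le, le_rfl⟩, h2⟩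
  have S2 : BddBelow S := ⟨l, fun x hx => hx.1.1⟩
  have x1 : l ≤ sInf S := le_csInf S1 fun x hx => hx.1.1
  have x2 : sInf S ≤ r := csInf_le S2 ⟨⟨hl.le, le_rfl⟩, h2⟩
  have hc := (h _ ⟨x1, x2⟩).continuousAt
  have x3 : φ (sInf S) ≤ 0 := by
    by_contra k
    obtain ⟨y, y1, y2⟩ := mem_closure_iff_nhds.mp (csInf_mem_closure S1 S2) _
      (hc.eventually (lt_mem_nhds (not_le.mp k)))
    exact lt_asymm y2.2 y1
  have x4 : ∀ t, l ≤ t → t < sInf S → 0 ≤ φ t := fun t a b =>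
    not_lt.mp fun k => b.not_ge (csInf_le S2 ⟨⟨a, b.le.trans x2⟩, k⟩)
  have x5 : l < sInf S := x1.lt_of_ne fun e => by rw [← e] at x3; linarith
  have x6 : 0 ≤ φ (sInf S) := ge_of_tendsto (hc.tendsto.mono_left (nhdsWithin_le_nhds (s := Set.Iio _)))
    (by filter_upwards [Ioo_mem_nhdsLT x5] with t ht using x4 t ht.1.le ht.2)
  have x7 : sInf S < r := x2.lt_of_ne fun e => by rw [e] at x6; linarith
  have x8 : ∀ᶠ t in 𝓝[≠] (sInf S), φ t ≠ 0 :=
    (h _ ⟨x1, x2⟩).eventually_eq_zero_or_eventually_ne_zero.resolve_left fun k =>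
      h1.ne' (AnalyticOnNhd.eqOn_zero_of_preconnected_of_eventuallyEq_zero h isPreconnected_Icc
        ⟨x1, x2⟩ k ⟨le_rfl, hl.le⟩)
  obtain ⟨ε, e0, e1⟩ := Metric.eventually_nhds_iff.mp
    ((eventually_nhdsWithin_iff.mp x8).and (Ioo_mem_nhds x5 x7))
  have e2 : ∀ t, sInf S - ε / 2 ≤ t → t ≤ sInf S + ε / 2 → (t ≠ sInf S → φ t ≠ 0) ∧ t ∈ Set.Ioo l r :=
    fun t a b => e1 (by rw [Real.dist_eq, abs_lt]; constructor <;> linarith)
  refine ⟨sInf S, ε / 2, by positivity, (e2 _ le_rfl (by linarith)).2.1.le,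
    (e2 _ (by linarith) le_rfl).2.2.le, fun t ht => ?_, fun t ht => ?_⟩
  · have := e2 t ht.1.le (by linarith [ht.2])
    exact (x4 t this.2.1.le ht.2).lt_of_ne (this.1 ht.2.ne).symm
  · obtain ⟨y, y1, y2⟩ := exists_lt_of_csInf_lt S1 ht.1
    have y3 : sInf S ≤ y := csInf_le S2 y1
    by_contra k
    obtain ⟨z, z1, z2⟩ := intermediate_value_Icc y2.le (fun z hz => (h z ⟨y1.1.1.trans hz.1,
      hz.2.trans (e2 t (by linarith [ht.1]) ht.2.le).2.2.le⟩).continuousAt.continuousWithinAt)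
      ⟨y1.2.le, not_lt.mp k⟩
    refine (e2 z (by linarith [z1.1]) (by linarith [z1.2, ht.2])).1 (fun e => ?_) z2
    rw [← le_antisymm (e ▸ z1.1) y3] at x6
    exact x6.not_gt y1.2

/-- `f` is the lower boundary of the curve `γ`, which lies over `I`. -/
structure Low (γ : Set (ℝ × ℝ)) (I : Set ℝ) (f : ℝ → ℝ) : Prop where
  mem : ∀ x ∈ I, (x, f x) ∈ γ
  le : ∀ x y, (x, y) ∈ γ → x ∈ I ∧ f x ≤ y
  an : ∀ x, x - 1 ∈ I → x + 1 ∈ I → AnalyticAt ℝ f x

/-- Finite families of functions of the class `C` are approximated by curves of the class `P`,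
and there are curves of the class `P` arbitrarily far to the right. -/
structure Rea (C : (ℝ → ℝ) → Set ℝ → Prop) (P : Set (ℝ × ℝ) → Prop) : Prop where
  apx : ∀ (α : Type) [Finite α] (p : α → ℝ → ℝ) (I : α → Set ℝ), (∀ a, C (p a) (I a)) →
    ∃ ε : ℝ, 0 < ε ∧ ∀ a, ∃ γ f, P γ ∧ Low γ (I a) f ∧ ∀ x ∈ I a, |f x - ε * p a x| ≤ ε / 10
  far : ∃ g : ℝ → Set (ℝ × ℝ), Function.Injective g ∧ ∀ t, P (g t) ∧ ∀ z ∈ g t, t ≤ z.1

theorem main {C : (ℝ → ℝ) → Set ℝ → Prop} {P : Set (ℝ × ℝ) → Prop} (hC : Cls C) (hP : Rea C P) :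
    ∃ c : ℝ, 0 < c ∧ ∃ n₀ : ℕ, ∀ n, n₀ ≤ n → ∃ Γ : Finset (Set (ℝ × ℝ)), #Γ = n ∧
      (∀ γ ∈ Γ, P γ) ∧ ∃ S : Finset ℝ, (∀ x ∈ S, IsBreak Γ x) ∧ c * n * 2 ^ alpha n ≤ #S := by
  classical
  refine ⟨1 / 2 ^ 15, by positivity, 2, fun n hn => ?_⟩
  have hn1 := nb_le_of hn
  set i := alpha n - 13 with hi
  obtain ⟨β, α, _, _, ⟨F⟩, c1, c2⟩ := exists_cfg hC i {1, 2} 3 6 (1 / 10) (n * 2 ^ i / (2 * nb i 2))
    (by norm_num) (by norm_num) (by norm_num) (by norm_num)
  rw [card_pair (by norm_num)] at c1 c2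
  have c3 : Fintype.card α ≤ n := by
    refine Nat.le_of_mul_le_mul_right ?_ (Nat.two_pow_pos i)
    rw [c2, c1, mul_left_comm]
    exact Nat.div_mul_le_self _ _
  have c4 : n * 2 ^ i ≤ 4 * Fintype.card β := by
    have h0 := nb_pos i 2
    have h1 := Nat.div_add_mod (n * 2 ^ i) (2 * nb i 2)
    have h2 := Nat.mod_lt (n * 2 ^ i) (show 0 < 2 * nb i 2 by omega)
    have h3 := Nat.div_pos hn1 (show 0 < 2 * nb i 2 by omega)
    rw [c1]
    nlinarith
  obtain ⟨ε, e0, hε⟩ := hP.apx α (fun a x => F.p a x + max (1 - F.lev a) (-1)) F.I fun a => by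
    simpa using hC.move _ _ (F.cls a) 1 0 0 (max (1 - F.lev a) (-1)) (.inl rfl)
  choose γ f g1 g2 g3 using hε
  obtain ⟨g, g4, g5⟩ := hP.far
  obtain ⟨K, -, hK⟩ := exists_bound F.x
  obtain ⟨Γ, Γ1, Γ2, Γ3⟩ := Set.Infinite.exists_superset_ncard_eq
    (((Set.Ioi_infinite K).image g4.injOn).mono (Set.subset_union_right (s := Set.range γ)))
    Set.subset_union_left (Set.finite_range γ) (k := n) (by
      rw [← Set.image_univ]
      exact (Set.ncard_image_le Set.finite_univ).trans (by simpa [Set.ncard_univ] using c3))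
  have Γ4 : Γ.Finite := Set.finite_of_ncard_ne_zero (by omega)
  have key : ∀ B, ∃ x, F.x B - 2 ≤ x ∧ x ≤ F.x B ∧ IsBreak Γ4.toFinset x := fun B => by
    obtain ⟨a, a1, a2⟩ := F.ex B 1 (by simp)
    obtain ⟨b, b1, b2⟩ := F.ex B 2 (by simp)
    have w : ∀ c, F.mem B c → ∀ y, |y - F.x B| ≤ 6 → y ∈ F.I c ∧ |f c y - ε * (F.v B + F.m B * y +
        F.lev c * (y - F.x B) ^ 2 + (1 - F.lev c))| ≤ ε / 5 := fun c hc y hy => by
      obtain ⟨h1, h2⟩ := (F.tan B c hc).2 y hy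
      have h3 := abs_le.mp (g3 c y h1)
      have h4 := abs_le.mp h2
      rw [max_eq_left (by
        rcases mem_insert.mp (F.tan B c hc).1 with e | e
        · linarith
        · linarith [mem_singleton.mp e])] at h3
      exact ⟨h1, abs_le.mpr ⟨by nlinarith, by nlinarith⟩⟩
    have w1 : ∀ y ∈ Set.Icc (F.x B - 2) (F.x B), ∀ d : ℝ, |d| ≤ 1 → |y + d - F.x B| ≤ 6 :=
      fun y hy d hd => abs_le.mpr ⟨by linarith [hy.1, (abs_le.mp hd).1], by linarith [hy.2, (abs_le.mp hd).2]⟩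
    have w2 : ∀ y ∈ Set.Icc (F.x B - 2) (F.x B), |y - F.x B| ≤ 6 := fun y hy => by
      simpa using w1 y hy 0 (by simp)
    have an : ∀ c, F.mem B c → ∀ y ∈ Set.Icc (F.x B - 2) (F.x B), AnalyticAt ℝ (f c) y :=
      fun c hc y hy => (g2 c).an y (w c hc _ (w1 y hy (-1) (by simp))).1 (w c hc _ (w1 y hy 1 (by simp))).1
    have oth : ∀ y ∈ Set.Icc (F.x B - 2) (F.x B), ∀ δ ∈ Γ4.toFinset, ∀ z, (y, z) ∈ δ →
        (δ = γ a ∧ f a y ≤ z) ∨ (δ = γ b ∧ f b y ≤ z) ∨ f a y < z := fun y hy δ hδ z hz => by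
      rcases Γ2 (Γ4.mem_toFinset.mp hδ) with ⟨c, rfl⟩ | ⟨t, ht, rfl⟩
      · obtain ⟨h1, h2⟩ := (g2 c).le y z hz
        by_cases hc : F.mem B c
        · rcases mem_insert.mp (F.tan B c hc).1 with e | e
          · obtain rfl := F.uniq B a c a1 hc (a2.trans e.symm)
            exact .inl ⟨rfl, h2⟩
          · obtain rfl := F.uniq B b c b1 hc (b2.trans (mem_singleton.mp e).symm)
            exact .inr (.inl ⟨rfl, h2⟩)
        · have h3 := F.vis B c hc y (w2 y hy) h1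
          have h4 := abs_le.mp (g3 c y h1)
          have h5 := abs_le.mp (w a a1 y (w2 y hy)).2
          have h6 : (y - F.x B) ^ 2 ≤ 4 := by nlinarith [hy.1, hy.2]
          have h7 := le_max_right (1 - F.lev c) (-1)
          rw [a2] at h5
          exact .inr (.inr (by nlinarith))
      · exact absurd ((g5 t).2 _ hz) (not_le.mpr (lt_of_le_of_lt (hy.2.trans (hK B)) ht))
    have p1 : 0 < f b (F.x B - 2) - f a (F.x B - 2) := by
      have h1 := abs_le.mp (w a a1 _ (w2 _ ⟨le_rfl, by linarith⟩)).2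
      have h2 := abs_le.mp (w b b1 _ (w2 _ ⟨le_rfl, by linarith⟩)).2
      rw [a2] at h1
      rw [b2] at h2
      nlinarith
    obtain ⟨x, η, η0, x1, x2, x3, x4⟩ := sign_change (φ := fun y => f b y - f a y)
      (by linarith : F.x B - 2 < F.x B) (fun y hy => (an b b1 y hy).sub (an a a1 y hy)) p1 (by
        have h1 := abs_le.mp (w a a1 _ (w2 _ ⟨by linarith, le_rfl⟩)).2
        have h2 := abs_le.mp (w b b1 _ (w2 _ ⟨by linarith, le_rfl⟩)).2
        rw [a2] at h1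
        rw [b2] at h2
        nlinarith)
    have m : ∀ c, γ c ∈ Γ4.toFinset := fun c => Γ4.mem_toFinset.mpr (Γ1 ⟨c, rfl⟩)
    refine ⟨x, by linarith, by linarith, γ a, m a, γ b, m b, fun e => ?_, η, η0,
      fun t ht δ hδ => ?_, fun t ht δ hδ => ?_⟩
    · have := (g2 a).mem _ (w a a1 _ (w2 (F.x B - 2) ⟨le_rfl, by linarith⟩)).1
      rw [e] at this
      linarith [((g2 b).le _ _ this).2]
    · have t1 : t ∈ Set.Icc (F.x B - 2) (F.x B) := ⟨by linarith [ht.1], by linarith [ht.2]⟩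
      have t2 := (g2 a).mem _ (w a a1 _ (w2 t t1)).1
      have t3 := x3 t ht
      refine ⟨fun ⟨z, z1, z2⟩ => ?_, fun e => ⟨_, e ▸ t2, fun δ' hδ' z hz => ?_⟩⟩
      · have := z2 _ (m a) _ t2
        rcases oth t t1 δ hδ z z1 with k | k | k
        exacts [k.1, by linarith [k.2], by linarith]
      · rcases oth t t1 δ' hδ' z hz with k | k | k
        exacts [k.2, by linarith [k.2], k.le]
    · have t1 : t ∈ Set.Icc (F.x B - 2) (F.x B) := ⟨by linarith [ht.1], by linarith [ht.2]⟩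
      have t2 := (g2 b).mem _ (w b b1 _ (w2 t t1)).1
      have t3 := x4 t ht
      refine ⟨fun ⟨z, z1, z2⟩ => ?_, fun e => ⟨_, e ▸ t2, fun δ' hδ' z hz => ?_⟩⟩
      · have := z2 _ (m b) _ t2
        rcases oth t t1 δ hδ z z1 with k | k | k
        exacts [by linarith [k.2], k.1, by linarith]
      · rcases oth t t1 δ' hδ' z hz with k | k | k
        exacts [by linarith [k.2], k.2, by linarith]
  choose x x1 x2 x3 using key
  have inj : Function.Injective x := fun B B' e => by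
    by_contra h
    have := F.sep B B' h
    have := x1 B; have := x2 B; have := x1 B'; have := x2 B'
    rcases lt_abs.mp ‹_ < |_|› with k | k <;> linarith
  refine ⟨Γ4.toFinset, by rw [← Set.ncard_eq_toFinset_card _ Γ4, Γ3], fun δ hδ => ?_,
    univ.image x, by simpa using x3, ?_⟩
  · rcases Γ2 (Γ4.mem_toFinset.mp hδ) with ⟨c, rfl⟩ | ⟨t, -, rfl⟩
    exacts [g1 c, (g5 t).1]
  · rw [card_image_of_injective _ inj, card_univ]
    have h1 : n * 2 ^ alpha n ≤ 2 ^ 15 * Fintype.card β := by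
      have : 2 ^ alpha n ≤ 2 ^ (i + 13) := Nat.pow_le_pow_right two_pos (by omega)
      rw [pow_add] at this
      nlinarith
    have h2 : (n : ℝ) * 2 ^ alpha n ≤ 2 ^ 15 * Fintype.card β := by exact_mod_cast h1
    linarith

theorem sqrt_bounds {R t : ℝ} (hR : 0 < R) (h : |t| ≤ R) :
    0 ≤ 2 * R * (R - √(R ^ 2 - t ^ 2)) - t ^ 2 ∧
      R ^ 2 * (2 * R * (R - √(R ^ 2 - t ^ 2)) - t ^ 2) ≤ t ^ 4 := by
  have h1 : t ^ 2 ≤ R ^ 2 := sq_le_sq' (abs_le.mp h).1 (abs_le.mp h).2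
  have h2 := Real.sq_sqrt (sub_nonneg.mpr h1)
  have h3 := Real.sqrt_nonneg (R ^ 2 - t ^ 2)
  generalize √(R ^ 2 - t ^ 2) = w at h2 h3
  have h4 : 2 * R * (R - w) - t ^ 2 = (R - w) ^ 2 := by linear_combination -h2
  rw [h4, show t ^ 4 = (R - w) ^ 2 * (R + w) ^ 2 by linear_combination (t ^ 2 + R ^ 2 - w ^ 2) * h2,
    mul_comm]
  exact ⟨sq_nonneg _, mul_le_mul_of_nonneg_left (by nlinarith) (sq_nonneg _)⟩

theorem an_sqrt {R z x : ℝ} (h : |x - z| < R) : AnalyticAt ℝ (fun x => √(R ^ 2 - (x - z) ^ 2)) x :=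
  (ContDiffAt.sqrt (n := ⊤) (f := fun x => R ^ 2 - (x - z) ^ 2) (by fun_prop)
    (sub_pos.mpr (sq_lt_sq' (abs_lt.mp h).1 (abs_lt.mp h).2)).ne').analyticAt

/-- Lower arcs of ellipses. -/
def CE (p : ℝ → ℝ) (I : Set ℝ) : Prop := ∃ z R h c m : ℝ, 0 < R ∧ 0 < h ∧
  I = {x | |x - z| ≤ R} ∧ ∀ x, p x = c + m * x - h * √(R ^ 2 - (x - z) ^ 2)

theorem cls_CE : Cls CE where
  move := by
    rintro p _ ⟨z, R, h, c, m, hR, hh, rfl, e⟩ σ t m' c' (rfl | rfl)
    · exact ⟨z + t, R, h, c + c' - m * t, m + m', hR, hh, by ext; simp [sub_sub, add_comm],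
        fun x => by beta_reduce; rw [e, show 1 * (x - t) - z = x - (z + t) by ring]; ring⟩
    · refine ⟨t - z, R, h, c + c' + m * t, m' - m, hR, hh, Set.ext fun x => ?_,
        fun x => by beta_reduce; rw [e, show (-1 * (x - t) - z) ^ 2 = (x - (t - z)) ^ 2 by ring]; ring⟩
      simp only [Set.mem_ofPred_eq]
      rw [show -1 * (x - t) - z = -(x - (t - z)) by ring, abs_neg]
  bdd := by
    rintro p _ ⟨z, R, h, c, m, hR, hh, rfl, e⟩
    exact ⟨R + |z|, fun x hx => by linarith [abs_sub_abs_le_abs_sub x z, show |x - z| ≤ R from hx]⟩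
  base := fun a M θ ha hM hθ => by
    obtain ⟨R, h1, h2⟩ : ∃ R, M + 1 ≤ R ∧ a * M ^ 4 ≤ θ * R := by
      have : 0 < a * M ^ 4 / θ := by positivity
      exact ⟨M + 1 + a * M ^ 4 / θ, by linarith, (div_le_iff₀' hθ).mp (by linarith)⟩
    have hR : 0 < R := by linarith
    refine ⟨_, _, ⟨0, R, 2 * a * R, 2 * a * R ^ 2, 0, hR, by positivity, rfl, fun _ => rfl⟩,
      fun x hx => ⟨by simpa using hx.trans (by linarith), ?_⟩⟩
    obtain ⟨h3, h4⟩ := sqrt_bounds hR (hx.trans (by linarith) : |x| ≤ R)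
    have h5 : x ^ 4 ≤ M ^ 4 := by
      rw [← Even.pow_abs (by decide : Even 4)]; gcongr
    rw [sub_zero, show 2 * a * R ^ 2 + 0 * x - 2 * a * R * √(R ^ 2 - x ^ 2) - a * x ^ 2 =
      a * (2 * R * (R - √(R ^ 2 - x ^ 2)) - x ^ 2) by ring, abs_of_nonneg (by positivity)]
    refine le_of_mul_le_mul_left ?_ (by positivity : 0 < R ^ 2)
    nlinarith [mul_le_mul_of_nonneg_left (h4.trans h5) ha.le,
      mul_le_mul_of_nonneg_left (show 1 ≤ R by linarith) (mul_pos hθ hR).le]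

theorem rea_CE : Rea CE IsEllipse where
  apx := fun α _ p I h => ⟨1, one_pos, fun a => by
    obtain ⟨z, R, h, c, m, hR, hh, e1, e2⟩ := h a
    have key : ∀ x y : ℝ, (1 / R * x + 0 * y + -z / R) ^ 2 +
        (-m / (h * R) * x + 1 / (h * R) * y + -c / (h * R)) ^ 2 = 1 ↔
        (y - (c + m * x)) ^ 2 = h ^ 2 * (R ^ 2 - (x - z) ^ 2) := fun x y => by
      field_simp
      constructor <;> intro k <;> linear_combination k
    refine ⟨_, p a, ⟨1 / R, 0, -m / (h * R), 1 / (h * R), -z / R, -c / (h * R), by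
      simp [hR.ne', hh.ne'], rfl⟩, ⟨fun x hx => (key _ _).mpr ?_, fun x y hy => ?_, fun x h1 h2 => ?_⟩,
      fun x _ => by norm_num⟩
    · rw [e1] at hx
      have := Real.sq_sqrt (sub_nonneg.mpr (sq_le_sq' (abs_le.mp hx).1 (abs_le.mp hx).2))
      rw [e2]
      linear_combination h ^ 2 * this
    · have k := (key _ _).mp hy
      have k1 : 0 ≤ R ^ 2 - (x - z) ^ 2 :=
        nonneg_of_mul_nonneg_right (k ▸ sq_nonneg _) (by positivity : 0 < h ^ 2)
      refine ⟨by rw [e1]; exact abs_le.mpr (abs_le_of_sq_le_sq' (by linarith) hR.le), ?_⟩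
      rw [e2]
      have k2 := abs_le_of_sq_le_sq' (a := y - (c + m * x)) (b := h * √(R ^ 2 - (x - z) ^ 2))
        (by rw [mul_pow, Real.sq_sqrt k1, k]) (by positivity)
      linarith [k2.1]
    · rw [e1, Set.mem_ofPred_eq] at h1 h2
      rw [show p a = _ from funext e2]
      exact AnalyticAt.sub (by fun_prop) (analyticAt_const.mul (an_sqrt (abs_lt.mpr
        ⟨by linarith [(abs_le.mp h1).1], by linarith [(abs_le.mp h2).2]⟩)))⟩
  far := ⟨fun t => {p | (1 * p.1 + 0 * p.2 + -(t + 1)) ^ 2 + (0 * p.1 + 1 * p.2 + 0) ^ 2 = 1},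
    fun t t' e => by
      have h1 := Set.ext_iff.mp e (t, 0)
      have h2 := Set.ext_iff.mp e (t + 2, 0)
      simp only [Set.mem_ofPred_eq] at h1 h2
      nlinarith [h1.mp (by ring), h2.mp (by ring)],
    fun t => ⟨⟨1, 0, 0, 1, _, 0, by norm_num, rfl⟩, fun z hz => by
      simp only [Set.mem_ofPred_eq] at hz
      nlinarith [sq_nonneg z.2]⟩⟩

/-- Arcs of parabolas. -/
def CP (p : ℝ → ℝ) (I : Set ℝ) : Prop := ∃ A z c l r : ℝ, 0 < A ∧ l < r ∧
  I = Set.Icc l r ∧ ∀ x, p x = c + A * (x - z) ^ 2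

theorem cls_CP : Cls CP where
  move := by
    rintro p _ ⟨A, z, c, l, r, hA, hl, rfl, e⟩ σ t m' c' (rfl | rfl)
    · exact ⟨A, z + t - m' / (2 * A), c + c' + m' * (z + t) - m' ^ 2 / (4 * A), l + t, r + t, hA,
        by linarith, by ext; simp [le_sub_iff_add_le],
        fun x => by beta_reduce; rw [e]; field_simp; ring⟩
    · refine ⟨A, t - z - m' / (2 * A), c + c' + m' * (t - z) - m' ^ 2 / (4 * A), t - r, t - l, hA,
        by linarith, Set.ext fun x => ?_, fun x => by beta_reduce; rw [e]; field_simp; ring⟩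
      simp only [Set.mem_ofPred_eq, Set.mem_Icc]
      constructor <;> rintro ⟨h1, h2⟩ <;> constructor <;> linarith
  bdd := by
    rintro p _ ⟨A, z, c, l, r, hA, hl, rfl, e⟩
    exact ⟨max |l| |r|, fun x hx => abs_le_max_abs_abs hx.1 hx.2⟩
  base := fun a M θ ha hM hθ => ⟨_, _, ⟨a, 0, 0, -M, M, ha, by linarith, rfl, fun _ => rfl⟩,
    fun x hx => ⟨abs_le.mp hx, by simpa using hθ.le⟩⟩

/-- A part of the lower half of a circle. -/
def arc (z c R l r : ℝ) : Set (ℝ × ℝ) :=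
  (fun x => (x, c - √(R ^ 2 - (x - z) ^ 2))) '' Set.Icc l r

theorem isArc_arc {z c R l r : ℝ} (hR : 0 < R) (hl : l < r) (h : ∀ x ∈ Set.Icc l r, |x - z| ≤ R) :
    IsArc (arc z c R l r) := by
  have hc : Continuous fun x => (x, c - √(R ^ 2 - (x - z) ^ 2)) := by fun_prop
  refine ⟨(isConnected_Icc hl.le).image _ hc.continuousOn, (isCompact_Icc.image hc).isClosed,
    ⟨_, ⟨l, ⟨le_rfl, hl.le⟩, rfl⟩, _, ⟨r, ⟨hl.le, le_rfl⟩, rfl⟩, fun e => hl.ne (congrArg Prod.fst e)⟩,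
    z, c, R, hR, ?_⟩
  rintro _ ⟨x, hx, rfl⟩
  have := Real.sq_sqrt (sub_nonneg.mpr (sq_le_sq' (abs_le.mp (h x hx)).1 (abs_le.mp (h x hx)).2))
  simp only [Set.mem_ofPred_eq]
  linear_combination this

theorem rea_CP : Rea CP IsArc where
  apx := fun α _ p I h => by
    choose A z c l r hA hl e1 e2 using h
    obtain ⟨K, K0, hK⟩ := exists_bound fun a => A a * (|l a - z a| + |r a - z a| + 1) +
      A a ^ 3 * (|l a - z a| + |r a - z a|) ^ 4
    obtain ⟨ε, e0, e3, e4⟩ : ∃ ε : ℝ, 0 < ε ∧ ε ≤ 1 ∧ 40 * ε * K ≤ 1 :=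
      ⟨1 / (40 * K + 1), by positivity, by rw [div_le_one (by positivity)]; linarith, by
        rw [mul_one_div, div_mul_eq_mul_div, div_le_one (by positivity)]; linarith⟩
    refine ⟨ε, e0, fun a => ?_⟩
    have A0 := hA a
    have k := hK a
    have w : ∀ x ∈ Set.Icc (l a) (r a), |x - z a| ≤ |l a - z a| + |r a - z a| := fun x hx =>
      (abs_le_max_abs_abs (by linarith [hx.1]) (by linarith [hx.2])).trans
        (max_le_add_of_nonneg (abs_nonneg _) (abs_nonneg _))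
    have w0 : 0 ≤ |l a - z a| + |r a - z a| := by positivity
    generalize |l a - z a| + |r a - z a| = W at k w w0
    obtain ⟨R, R0, hR⟩ : ∃ R, 0 < R ∧ 2 * ε * A a * R = 1 :=
      ⟨1 / (2 * ε * A a), by positivity, by field_simp⟩
    have k1 : A a * (W + 1) ≤ K := le_trans (le_add_of_nonneg_right (by positivity)) k
    have k2 : A a ^ 3 * W ^ 4 ≤ K := le_trans (le_add_of_nonneg_left (by positivity)) k
    have k3 : W < R := lt_of_mul_lt_mul_left (a := 2 * ε * A a) (by nlinarith [mul_pos e0 A0])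
      (by positivity)
    refine ⟨arc (z a) (ε * c a + R) R (l a) (r a), fun x => ε * c a + R - √(R ^ 2 - (x - z a) ^ 2),
      isArc_arc R0 (hl a) fun x hx => (w x hx).trans k3.le, ⟨fun x hx => ⟨x, e1 a ▸ hx, rfl⟩, ?_,
        fun x h1 h2 => AnalyticAt.sub (by fun_prop) (an_sqrt ((w x ?_).trans_lt k3))⟩, fun x hx => ?_⟩
    · rintro x y ⟨x', h1, h2⟩
      obtain ⟨rfl, rfl⟩ := Prod.mk.inj h2
      exact ⟨e1 a ▸ h1, le_rfl⟩
    · rw [e1] at h1 h2
      exact ⟨by linarith [h1.1], by linarith [h2.2]⟩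
    · rw [e1] at hx
      obtain ⟨h3, h4⟩ := sqrt_bounds R0 ((w x hx).trans k3.le)
      have h5 : (x - z a) ^ 4 ≤ W ^ 4 := by
        rw [← Even.pow_abs (by decide : Even 4)]
        exact pow_le_pow_left₀ (abs_nonneg _) (w x hx) 4
      rw [e2, show ε * c a + R - √(R ^ 2 - (x - z a) ^ 2) - ε * (c a + A a * (x - z a) ^ 2) =
        ε * (A a * (2 * R * (R - √(R ^ 2 - (x - z a) ^ 2)) - (x - z a) ^ 2)) by
          linear_combination (√(R ^ 2 - (x - z a) ^ 2) - R) * hR, abs_of_nonneg (by positivity),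
        div_eq_mul_inv]
      refine mul_le_mul_of_nonneg_left ?_ e0.le
      generalize 2 * R * (R - √(R ^ 2 - (x - z a) ^ 2)) - (x - z a) ^ 2 = u at h3 h4
      have h6 := mul_le_mul_of_nonneg_left (h4.trans h5) (by positivity : 0 ≤ 4 * ε ^ 2 * A a ^ 3)
      have h7 : 4 * ε ^ 2 * A a ^ 3 * (R ^ 2 * u) = A a * u := by
        linear_combination A a * u * (2 * ε * A a * R + 1) * hR
      nlinarith [mul_le_mul_of_nonneg_left k2 (by positivity : 0 ≤ 4 * ε ^ 2),
        mul_le_mul_of_nonneg_left e3 (by positivity : 0 ≤ 4 * ε * K)]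
  far := ⟨fun t => arc t 0 1 t (t + 1), fun t t' e => by
      have key : ∀ s s' : ℝ, arc s 0 1 s (s + 1) = arc s' 0 1 s' (s' + 1) → s' ≤ s := fun s s' e => by
        obtain ⟨x, h1, h2⟩ := (Set.ext_iff.mp e _).mp ⟨s, ⟨le_rfl, by linarith⟩, rfl⟩
        exact (Prod.mk.inj h2).1 ▸ h1.1
      exact le_antisymm (key _ _ e.symm) (key _ _ e),
    fun t => ⟨isArc_arc one_pos (by linarith) fun x hx => abs_le.mpr ⟨by linarith [hx.1], by linarith [hx.2]⟩,
      by rintro _ ⟨x, hx, rfl⟩; exact hx.1⟩⟩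

end Pool.Agent.Lib.MP_a48542_co
end
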